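import Mathlib
import Pool.Agent.H15.Spec

set_option autoImplicit false

namespace Pool.Agent.Results.MP_4a987e_co.Comb32

open Finset Matrix

variable {n : ℕ}

lemma herm (G : SimpleGraph (Fin n)) [DecidableRel G.Adj] : (G.adjMatrix ℝ).IsHermitian := by
  ext i j
  simp [G.adj_comm]

/-- The energy: sum of the absolute values of the adjacency eigenvalues. -/
noncomputable def energy (G : SimpleGraph (Fin n)) [DecidableRel G.Adj] : ℝ :=
  ∑ k, |(herm G).eigenvalues k|

/-- The largest adjacency eigenvalue. -/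
noncomputable def lam1 (G : SimpleGraph (Fin n)) [DecidableRel G.Adj] : ℝ :=
  ⨆ k, (herm G).eigenvalues k

def H : SimpleGraph (Fin 32) where
  Adj a b := a ≠ b ∧ (a.1 / 2 = b.1 / 2 ∨ (a.1 = 0 ∧ b.1 % 2 = 0) ∨ (b.1 = 0 ∧ a.1 % 2 = 0))
  symm := ⟨fun _ _ h => ⟨h.1.symm, by omega⟩⟩
  loopless := ⟨fun _ h => h.1 rfl⟩

instance : DecidableRel H.Adj := fun _ _ => inferInstanceAs (Decidable (_ ∧ _))

def s (a : Fin 32) : Fin 32 := if a.1 % 2 = 0 then a + 1 else a - 1

def σ : Equiv.Perm (Fin 32) := ⟨s, s, by decide, by decide⟩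

def x (a : Fin 32) : ℤ := if a.1 = 0 then 4 else if a.1 = 1 ∨ a.1 % 2 = 0 then 1 else 0

lemma card_edges : H.edgeFinset.card = 31 := by
  have h := H.sum_degrees_eq_twice_card_edges
  have : ∑ v, H.degree v = 62 := by decide +kernel
  omega

theorem result : ∃ (n : ℕ) (G : SimpleGraph (Fin n)) (_ : DecidableRel G.Adj),
    G.Connected ∧ 1 ≤ G.edgeFinset.card ∧
      2 * (G.edgeFinset.card : ℝ) / Real.sqrt (lam1 G) < energy G := by
  refine ⟨32, H, inferInstance, ?_, by rw [card_edges]; norm_num, ?_⟩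
  · have : ∀ v : Fin 32, v = 0 ∨ H.Adj v 0 ∨ (H.Adj v (s v) ∧ H.Adj (s v) 0) := by decide
    have h : ∀ v, H.Reachable v 0 := fun v => by
      rcases this v with rfl | h | h
      · rfl
      · exact h.reachable
      · exact h.1.reachable.trans h.2.reachable
    exact ⟨fun u v => (h u).trans (h v).symm⟩
  · have h1 : (32 : ℝ) ≤ energy H := by
      refine le_trans (le_of_eq ?_) (Pool.Agent.H15.Spec.trace_perm_le (herm H) σ)
      have : ∀ i, H.Adj i (σ i) := by decide
      simp [this]
    have h2 : 4 ≤ lam1 H := by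
      have := Pool.Agent.H15.Spec.rayleigh_le (herm H) (fun a => (x a : ℝ)) (lam1 H)
        (fun k => le_ciSup (Finite.bddAbove_range _) k)
      have a : ∑ i, ∑ j, x i * (if H.Adj i j then 1 else 0) * x j = 128 := by decide +kernel
      have b : ∑ i, x i * x i = 32 := by decide +kernel
      have a' : ∑ i, ∑ j, (x i : ℝ) * H.adjMatrix ℝ i j * x j = 128 := by
        simp only [SimpleGraph.adjMatrix_apply]; exact_mod_cast a
      have b' : ∑ i, (x i : ℝ) * x i = 32 := by exact_mod_cast b
      rw [a', b'] at this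
      linarith
    have h3 : 2 ≤ Real.sqrt (lam1 H) := Real.le_sqrt_of_sq_le (by linarith)
    rw [card_edges, div_lt_iff₀ (by linarith)]
    push_cast
    nlinarith

end Pool.Agent.Results.MP_4a987e_co.Comb32
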